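import Pool.Agent.T2H32.HK.Fin
import Pool.Agent.T2H32.HK.Exist

set_option autoImplicit false

/-!
# Cramér's inequality for the Hawkins primes

The Hawkins random sieve: starting from the integers `≥ 2`, at each stage the least integer `q` that is left and has
not been used yet is declared a (random) prime and every larger integer is struck out, independently, with
probability `1 / q`. So `k ≥ 2` is a random prime if and only if no random prime `j < k` strikes it out.
Write `p n` for the random primes in increasing order and `g n = p (n + 1) - p n - 1`.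

The theorem: almost surely `∏_{q < x} (1 - 1 / q)⁻¹ - log x` (product over the random primes) has a limit `L`, which is
not almost surely constant, and `L` determines how often Cramér's inequality fails: the number of `n` with `p n ≤ x` and
`g n ≥ (log p n) ^ 2` is `(exp (L - 1 / 2) + o(1)) log log x`. More generally, for every `ψ(k) = o(log k)` the number
of `n` with `p n ≤ x` and `g n ≥ (log p n) ^ 2 + ψ(p n) log p n` is asymptotic to `exp (L - 1 / 2) F(x)`,
`F(x) = ∑ exp (-ψ(k)) / (k log k)` over `3 ≤ k ≤ x`, if `F` tends to infinity, and bounded otherwise. In particular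
`limsup (g n - (log p n) ^ 2) / (log p n log log log p n) = 1` almost surely.
-/

open MeasureTheory ProbabilityTheory Filter Topology

namespace Pool.Agent.Results.MP_69be96_nt.HawkinsSieveExceptions

/-- `E j k` is the event that `j` strikes out `k` if `j` is a random prime: these events are independent, and
`P (E j k) = 1 / j` for `2 ≤ j < k`. `A k` is the event that `k` is a random prime. -/
structure Model {Ω : Type} [MeasurableSpace Ω] (P : Measure Ω) (E : ℕ → ℕ → Set Ω) (A : ℕ → Set Ω) : Prop where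
  measurable : ∀ j k, MeasurableSet (E j k)
  independent : iIndepSet (fun q : ℕ × ℕ => E q.1 q.2) P
  probability : ∀ j k, 2 ≤ j → j < k → P.real (E j k) = 1 / j
  sieve : ∀ ω k, ω ∈ A k ↔ 2 ≤ k ∧ ∀ j < k, ω ∈ A j → ω ∉ E j k

/-- the random primes in increasing order, numbered from `0` -/
noncomputable def p {Ω : Type} (A : ℕ → Set Ω) (ω : Ω) (n : ℕ) : ℕ := Nat.nth (fun k => ω ∈ A k) n

/-- `g n = p (n + 1) - p n - 1`, the number of integers strictly between two consecutive random primes -/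
noncomputable def g {Ω : Type} (A : ℕ → Set Ω) (ω : Ω) (n : ℕ) : ℝ := (p A ω (n + 1) : ℝ) - p A ω n - 1

/-- the `n` with `g n ≥ (log p n) ^ 2 + ψ(p n) log p n` -/
def Exceptions {Ω : Type} (A : ℕ → Set Ω) (ψ : ℕ → ℝ) (ω : Ω) : Set ℕ :=
  {n | Real.log (p A ω n) ^ 2 + ψ (p A ω n) * Real.log (p A ω n) ≤ g A ω n}

/-- their number with `p n ≤ x` -/
noncomputable def N {Ω : Type} (A : ℕ → Set Ω) (ψ : ℕ → ℝ) (ω : Ω) (x : ℕ) : ℕ :=
  {n | n ∈ Exceptions A ψ ω ∧ p A ω n ≤ x}.ncard

/-- `∑ exp (-ψ(k)) / (k log k)` over `3 ≤ k ≤ x` -/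
noncomputable def F (ψ : ℕ → ℝ) (x : ℕ) : ℝ := ∑ k ∈ Finset.Icc 3 x, Real.exp (-ψ k) / (k * Real.log k)

open Classical in
/-- `∏ (1 - 1 / q)⁻¹ - log x → L`, the product over the random primes `q < x` -/
def Mertens {Ω : Type} (A : ℕ → Set Ω) (ω : Ω) (L : ℝ) : Prop :=
  Tendsto (fun x : ℕ => (∏ q ∈ (Finset.range x).filter (fun q => ω ∈ A q), (1 - 1 / (q : ℝ)))⁻¹ - Real.log x)
    atTop (𝓝 L)

theorem F_eq (ψ : ℕ → ℝ) (x : ℕ) : F ψ x = ∑ k ∈ Finset.range (x + 1), Pool.Agent.T2H32.HK.vv ψ k := by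
  unfold F Pool.Agent.T2H32.HK.vv
  rw [← Finset.sum_filter]
  refine Finset.sum_congr ?_ fun _ _ => rfl
  ext k
  simp only [Finset.mem_filter, Finset.mem_Icc, Finset.mem_range]
  omega

theorem result :
    (∃ (Ω : Type) (_ : MeasurableSpace Ω) (P : Measure Ω) (E : ℕ → ℕ → Set Ω) (A : ℕ → Set Ω), Model P E A) ∧
    ∀ (Ω : Type) [MeasurableSpace Ω] (P : Measure Ω) (E : ℕ → ℕ → Set Ω) (A : ℕ → Set Ω), Model P E A →
      (∀ᵐ ω ∂P, {k | ω ∈ A k}.Infinite) ∧
      (∀ᵐ ω ∂P, ∃ L : ℝ, Mertens A ω L ∧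
        Tendsto (fun x : ℕ => (N A (fun _ => 0) ω x : ℝ) / Real.log (Real.log x)) atTop
          (𝓝 (Real.exp (L - 1 / 2)))) ∧
      (∀ L : ℝ, ¬ ∀ᵐ ω ∂P, Mertens A ω L) ∧
      (∀ ψ : ℕ → ℝ, Tendsto (fun k : ℕ => ψ k / Real.log k) atTop (𝓝 0) →
        (Tendsto (F ψ) atTop atTop →
          ∀ᵐ ω ∂P, ∃ L : ℝ, Mertens A ω L ∧
            Tendsto (fun x : ℕ => (N A ψ ω x : ℝ) / F ψ x) atTop (𝓝 (Real.exp (L - 1 / 2)))) ∧
        (¬ Tendsto (F ψ) atTop atTop → ∀ᵐ ω ∂P, (Exceptions A ψ ω).Finite)) ∧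
      (∀ᵐ ω ∂P,
        (∃ᶠ n in atTop, Real.log (p A ω n) ^ 2 +
          Real.log (p A ω n) * Real.log (Real.log (Real.log (p A ω n))) ≤ g A ω n) ∧
        ∀ ε : ℝ, 0 < ε → ∀ᶠ n in atTop, g A ω n < Real.log (p A ω n) ^ 2 +
          (1 + ε) * (Real.log (p A ω n) * Real.log (Real.log (Real.log (p A ω n))))) := by
  constructor
  · obtain ⟨Ω, i, P, E, A, h⟩ := Pool.Agent.T2H32.HK.exists_model
    exact ⟨Ω, i, P, E, A, h.measurable, h.independent, h.probability, h.sieve⟩
  · intro Ω _ P E A hmod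
    have h : Pool.Agent.T2H32.HK.Model P E A :=
      ⟨hmod.measurable, hmod.independent, hmod.probability, hmod.sieve⟩
    have hM : ∀ (ω : Ω) (L : ℝ), Mertens A ω L ↔
        Tendsto (fun k => Pool.Agent.T2H32.HK.Z A k ω - Real.log k) atTop (𝓝 L) := fun ω L => Iff.rfl
    have hF : ∀ ψ : ℕ → ℝ, Tendsto (F ψ) atTop atTop ↔
        Tendsto (fun n => ∑ k ∈ Finset.range n, Pool.Agent.T2H32.HK.vv ψ k) atTop atTop := by
      intro ψ
      have e : F ψ = fun x => ∑ k ∈ Finset.range (x + 1), Pool.Agent.T2H32.HK.vv ψ k := funext (F_eq ψ)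
      rw [e]
      exact tendsto_add_atTop_iff_nat (f := fun n => ∑ k ∈ Finset.range n, Pool.Agent.T2H32.HK.vv ψ k) 1
    refine ⟨Pool.Agent.T2H32.HK.inf_A h, ?_, ?_, ?_, ?_⟩
    · filter_upwards [Pool.Agent.T2H32.HK.Z_conv h, Pool.Agent.T2H32.HK.part_zero h] with ω ⟨L, hL⟩ hω
      exact ⟨L, (hM ω L).2 hL, hω L hL⟩
    · intro L hL
      exact Pool.Agent.T2H32.HK.nonconst h L hL
    · intro ψ hψ
      constructor
      · intro hdiv
        filter_upwards [Pool.Agent.T2H32.HK.Z_conv h, Pool.Agent.T2H32.HK.part_div h ψ hψ ((hF ψ).1 hdiv)]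
          with ω ⟨L, hL⟩ hω
        refine ⟨L, (hM ω L).2 hL, (hω L hL).congr fun x => ?_⟩
        rw [F_eq]
        rfl
      · intro hdiv
        exact Pool.Agent.T2H32.HK.part_conv h ψ hψ (fun h' => hdiv ((hF ψ).2 h'))
    · filter_upwards [Pool.Agent.T2H32.HK.part_lil h] with ω hω
      constructor
      · refine hω.1.mono fun n hn => ?_
        have h1 : Real.log (p A ω n) ^ 2 +
          Real.log (Real.log (Real.log (p A ω n))) * Real.log (p A ω n) ≤ g A ω n := hn
        linarith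
      · intro ε hε
        refine (hω.2 ε hε).mono fun n hn => ?_
        have h1 : g A ω n < Real.log (p A ω n) ^ 2 +
          (1 + ε) * Real.log (Real.log (Real.log (p A ω n))) * Real.log (p A ω n) := hn
        linarith

end Pool.Agent.Results.MP_69be96_nt.HawkinsSieveExceptions
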