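import Pool.Agent.T2H32.CM.Main

set_option autoImplicit false

/-!
# Cramér's inequality for the random primes: the exact number of exceptions

The `M`-sieved Cramér model: the integers `k ≥ 3` prime to `M` are put independently into the set of random
primes with probability `min 1 ((M / φ(M)) / log k)` (`M = 1` is Cramér's model, the others are Granville's
modification with a fixed modulus). Write `p n` for the random primes in increasing order and
`g n = p (n + 1) - p n - 1`.

The theorem decides, for every function `ψ(k) = o(log k)`, how often `g n ≥ (log p n) ^ 2 + ψ(p n) log p n`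
occurs: an integral test with a strong law for the number of occurrences. In particular almost surely
Cramér's inequality `g n < (log p n) ^ 2` fails for infinitely many `n`, and exactly for
`(exp (- M / (2 φ(M))) + o(1)) log log x` of the `n` with `p n ≤ x`; and almost surely
`limsup (g n - (log p n) ^ 2) / (log p n log log log p n) = 1`.
-/

open MeasureTheory ProbabilityTheory Filter Topology

namespace Pool.Agent.Results.MP_69be96_nt.RandomModelIntegralTest

/-- `M / φ(M)` -/
noncomputable def κ (M : ℕ) : ℝ := (M : ℝ) / M.totient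

/-- `A k` is the event that `k` is a random prime: these events are independent, of probability
`min 1 ((M / φ(M)) / log k)` for the integers `k ≥ 3` prime to `M`, and of probability zero for the others. -/
structure Model {Ω : Type} [MeasurableSpace Ω] (P : Measure Ω) (M : ℕ) (A : ℕ → Set Ω) : Prop where
  measurable : ∀ k, MeasurableSet (A k)
  independent : iIndepSet A P
  probability : ∀ k, P.real (A k) = if 3 ≤ k ∧ k.Coprime M then min 1 (κ M / Real.log k) else 0

/-- the random primes in increasing order, numbered from `0` -/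
noncomputable def p {Ω : Type} (A : ℕ → Set Ω) (ω : Ω) (n : ℕ) : ℕ := Nat.nth (fun k => ω ∈ A k) n

/-- `g n = p (n + 1) - p n - 1`, the number of integers strictly between two consecutive random primes -/
noncomputable def g {Ω : Type} (A : ℕ → Set Ω) (ω : Ω) (n : ℕ) : ℝ := (p A ω (n + 1) : ℝ) - p A ω n - 1

/-- the `n` with `g n ≥ (log p n) ^ 2 + ψ(p n) log p n` -/
def Exceptions {Ω : Type} (A : ℕ → Set Ω) (ψ : ℕ → ℝ) (ω : Ω) : Set ℕ :=
  {n | Real.log (p A ω n) ^ 2 + ψ (p A ω n) * Real.log (p A ω n) ≤ g A ω n}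

/-- their number with `p n ≤ x` -/
noncomputable def N {Ω : Type} (A : ℕ → Set Ω) (ψ : ℕ → ℝ) (ω : Ω) (x : ℕ) : ℕ :=
  {n | n ∈ Exceptions A ψ ω ∧ p A ω n ≤ x}.ncard

/-- `(M / φ(M)) exp (- M / (2 φ(M))) ∑ exp (-ψ(k)) / (k log k)`, summed over `3 ≤ k ≤ x` prime to `M` -/
noncomputable def F (M : ℕ) (ψ : ℕ → ℝ) (x : ℕ) : ℝ :=
  κ M * Real.exp (-(κ M / 2)) *
    ∑ k ∈ (Finset.Icc 3 x).filter (fun k => k.Coprime M), Real.exp (-ψ k) / (k * Real.log k)

theorem F_eq (M : ℕ) (ψ : ℕ → ℝ) (x : ℕ) : F M ψ x = Pool.Agent.T2H32.CM.G M ψ (x + 1) := by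
  unfold F Pool.Agent.T2H32.CM.G
  have h1 : ∑ k ∈ Finset.range (x + 1), Pool.Agent.T2H32.CM.b M ψ k =
      ∑ k ∈ (Finset.range (x + 1)).filter (fun k => 3 ≤ k ∧ k.Coprime M),
        κ M * Real.exp (-(κ M / 2)) * (Real.exp (-ψ k) / (k * Real.log k)) := by
    rw [Finset.sum_filter]
    refine Finset.sum_congr rfl fun k _ => ?_
    unfold Pool.Agent.T2H32.CM.b Pool.Agent.T2H32.CM.χ
    by_cases h3 : 3 ≤ k <;> by_cases hc : k.Coprime M <;>
      simp [h3, hc, κ, Pool.Agent.T2H32.CM.μ]
  rw [h1, Finset.mul_sum]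
  refine Finset.sum_congr ?_ fun _ _ => rfl
  ext k
  simp only [Finset.mem_filter, Finset.mem_Icc, Finset.mem_range]
  constructor
  · rintro ⟨⟨a, b⟩, c⟩
    exact ⟨by omega, a, c⟩
  · rintro ⟨a, b, c⟩
    exact ⟨⟨b, by omega⟩, c⟩

theorem result (M : ℕ) (hM : 0 < M) :
    (∃ (Ω : Type) (_ : MeasurableSpace Ω) (P : Measure Ω) (A : ℕ → Set Ω), Model P M A) ∧
    ∀ (Ω : Type) [MeasurableSpace Ω] (P : Measure Ω) (A : ℕ → Set Ω), Model P M A →
      (∀ᵐ ω ∂P, {k | ω ∈ A k}.Infinite) ∧
      (∀ ψ : ℕ → ℝ, Tendsto (fun k : ℕ => ψ k / Real.log k) atTop (𝓝 0) →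
        (Tendsto (F M ψ) atTop atTop →
          ∀ᵐ ω ∂P, Tendsto (fun x : ℕ => (N A ψ ω x : ℝ) / F M ψ x) atTop (𝓝 1)) ∧
        (¬ Tendsto (F M ψ) atTop atTop → ∀ᵐ ω ∂P, (Exceptions A ψ ω).Finite)) ∧
      (∀ᵐ ω ∂P, Tendsto (fun x : ℕ => (N A (fun _ => 0) ω x : ℝ) / Real.log (Real.log x)) atTop
        (𝓝 (Real.exp (-(κ M / 2))))) ∧
      (∀ᵐ ω ∂P,
        (∃ᶠ n in atTop, Real.log (p A ω n) ^ 2 +
          Real.log (p A ω n) * Real.log (Real.log (Real.log (p A ω n))) ≤ g A ω n) ∧
        ∀ ε : ℝ, 0 < ε → ∀ᶠ n in atTop, g A ω n < Real.log (p A ω n) ^ 2 +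
          (1 + ε) * (Real.log (p A ω n) * Real.log (Real.log (Real.log (p A ω n))))) := by
  constructor
  · obtain ⟨Ω, i, P, A, h1, h2, h3⟩ := Pool.Agent.T2H32.CM.exists_indep
      (fun k => Pool.Agent.T2H32.CM.θ M k) (fun k => Pool.Agent.T2H32.CM.θ_nonneg M hM k)
      (fun k => Pool.Agent.T2H32.CM.θ_le M k)
    exact ⟨Ω, i, P, A, h1, h2, h3⟩
  · intro Ω _ P A hmod
    have : IsProbabilityMeasure P := hmod.independent.isProbabilityMeasure
    have hP : ∀ k, P.real (A k) = Pool.Agent.T2H32.CM.θ M k := hmod.probability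
    have hF : ∀ ψ : ℕ → ℝ, Tendsto (F M ψ) atTop atTop ↔
        Tendsto (Pool.Agent.T2H32.CM.G M ψ) atTop atTop := by
      intro ψ
      have e : F M ψ = fun x => Pool.Agent.T2H32.CM.G M ψ (x + 1) := funext (F_eq M ψ)
      rw [e]
      exact tendsto_add_atTop_iff_nat 1
    refine ⟨Pool.Agent.T2H32.CM.inf_A A hmod.measurable hmod.independent M hM hP, ?_, ?_, ?_⟩
    · intro ψ hψ
      constructor
      · intro h
        have h1 := Pool.Agent.T2H32.CM.part_div A hmod.measurable hmod.independent M hM hP ψ hψ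
          ((hF ψ).1 h)
        filter_upwards [h1] with ω hω
        refine hω.congr fun x => ?_
        rw [F_eq]
        rfl
      · intro h
        exact Pool.Agent.T2H32.CM.part_conv A hmod.measurable hmod.independent M hM hP ψ hψ
          (fun h' => h ((hF ψ).2 h'))
    · exact Pool.Agent.T2H32.CM.part_zero A hmod.measurable hmod.independent M hM hP
    · filter_upwards [Pool.Agent.T2H32.CM.part_lil A hmod.measurable hmod.independent M hM hP]
        with ω hω
      constructor
      · refine hω.1.mono fun n hn => ?_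
        have h1 : Real.log (p A ω n) ^ 2 +
          Real.log (Real.log (Real.log (p A ω n))) * Real.log (p A ω n) ≤ g A ω n := hn
        linarith
      · intro ε hε
        refine (hω.2 ε hε).mono fun n hn => ?_
        have h1 : g A ω n < Real.log (p A ω n) ^ 2 +
          (1 + ε) * Real.log (Real.log (Real.log (p A ω n))) * Real.log (p A ω n) := hn
        linarith

end Pool.Agent.Results.MP_69be96_nt.RandomModelIntegralTest
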