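import Pool.Agent.T2H32.BF.Fin

set_option autoImplicit false

/-!
# Cramér's inequality in the random sieve model of Banks, Ford and Tao: how often it fails

For every prime `q` a residue class `a q` modulo `q` is drawn uniformly and independently. The random primes are
the integers `k ≥ 3` that are in none of the classes `a q mod q` with `q ≤ z k`, where the sieving limit `z k` is
nondecreasing and chosen so that the density `V (z k) = ∏_{q ≤ z k} (1 - 1 / q)` is `(1 + o(1)) / log k`.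
Write `p n` for the random primes in increasing order and `g n = p (n + 1) - p n - 1`.

The theorem: almost surely, for all `c > 0` and `0 ≤ θ < 1 - c e ^ γ / 2`, at least `x ^ θ` of the `n` with
`p n ≤ x` satisfy `g n ≥ c (log p n) ^ 2`, once `x` is large. With `c = 1`: almost surely Cramér's inequality
`g n < (log p n) ^ 2` fails for at least `x ^ θ` of the `n` with `p n ≤ x`, for every
`θ < 1 - e ^ γ / 2 = 0.109...`, for instance for `θ = 1 / 10`.
-/

open MeasureTheory ProbabilityTheory Filter Topology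

namespace Pool.Agent.Results.MP_69be96_nt.RandomSieveExceptions

/-- `V m = ∏ (1 - 1 / q)` over the primes `q ≤ m` -/
noncomputable def V (m : ℕ) : ℝ := ∏ q ∈ (Finset.range (m + 1)).filter Nat.Prime, (1 - 1 / (q : ℝ))

/-- the classes `a q` are independent, and `a q` is uniform on `0, …, q - 1` for every prime `q` -/
structure Model {Ω : Type} [MeasurableSpace Ω] (P : Measure Ω) (a : ℕ → Ω → ℕ) : Prop where
  measurable : ∀ q, Measurable (a q)
  independent : iIndepFun a P
  uniform : ∀ q, q.Prime → ∀ r < q, P.real {ω | a q ω = r} = 1 / q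

/-- an admissible sieving limit: nondecreasing, with density `(1 + o(1)) / log k` at `k` -/
def Limit (z : ℕ → ℕ) : Prop := Monotone z ∧ Tendsto (fun k => V (z k) * Real.log k) atTop (𝓝 1)

/-- the sieving limit of Banks, Ford and Tao: the largest `m` with `∏_{q ≤ m} (1 - 1 / q)⁻¹ ≤ log k` -/
noncomputable def zBFT (k : ℕ) : ℕ := sSup {m : ℕ | (V m)⁻¹ ≤ Real.log k}

/-- the set of the random primes -/
def R {Ω : Type} (z : ℕ → ℕ) (a : ℕ → Ω → ℕ) (ω : Ω) : Set ℕ :=
  {k | 3 ≤ k ∧ ∀ q ≤ z k, q.Prime → k % q ≠ a q ω}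

/-- the random primes in increasing order, numbered from `0` -/
noncomputable def p {Ω : Type} (z : ℕ → ℕ) (a : ℕ → Ω → ℕ) (ω : Ω) (n : ℕ) : ℕ :=
  Nat.nth (fun k => k ∈ R z a ω) n

/-- `g n = p (n + 1) - p n - 1`, the number of integers strictly between two consecutive random primes -/
noncomputable def g {Ω : Type} (z : ℕ → ℕ) (a : ℕ → Ω → ℕ) (ω : Ω) (n : ℕ) : ℝ :=
  (p z a ω (n + 1) : ℝ) - p z a ω n - 1

/-- the number of `n` with `g n ≥ c (log p n) ^ 2` and `p n ≤ x` -/
noncomputable def N {Ω : Type} (z : ℕ → ℕ) (a : ℕ → Ω → ℕ) (ω : Ω) (c : ℝ) (x : ℕ) : ℕ :=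
  {n | c * Real.log (p z a ω n) ^ 2 ≤ g z a ω n ∧ p z a ω n ≤ x}.ncard

theorem result :
    (∃ (Ω : Type) (_ : MeasurableSpace Ω) (P : Measure Ω) (a : ℕ → Ω → ℕ), Model P a) ∧ Limit zBFT ∧
    ∀ (Ω : Type) [MeasurableSpace Ω] (P : Measure Ω) (a : ℕ → Ω → ℕ), Model P a → ∀ z : ℕ → ℕ, Limit z →
      ∀ᵐ ω ∂P, (R z a ω).Infinite ∧
        (∀ c θ : ℝ, 0 < c → 0 ≤ θ → θ < 1 - c * (Real.exp Real.eulerMascheroniConstant / 2) →
          ∀ᶠ x : ℕ in atTop, (x : ℝ) ^ θ ≤ N z a ω c x) ∧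
        (∀ᶠ x : ℕ in atTop, (x : ℝ) ^ (1 / 10 : ℝ) ≤
          {n | ¬ g z a ω n < Real.log (p z a ω n) ^ 2 ∧ p z a ω n ≤ x}.ncard) := by
  refine ⟨?_, ⟨Pool.Agent.T2H32.BF.z0_mono, Pool.Agent.T2H32.BF.z0_lim⟩, ?_⟩
  · obtain ⟨Ω, i, P, a, h⟩ := Pool.Agent.T2H32.BF.exists_model
    exact ⟨Ω, i, P, a, h.measurable, h.independent, h.uniform⟩
  · intro Ω _ P a hmod z hz
    have h : Pool.Agent.T2H32.BF.Model P a := ⟨hmod.measurable, hmod.independent, hmod.uniform⟩
    filter_upwards [Pool.Agent.T2H32.BF.main_all h z hz.1 hz.2] with ω hω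
    refine ⟨hω.1, hω.2, ?_⟩
    have h1 := Pool.Agent.T2H32.BF.expg
    filter_upwards [hω.2 1 (1 / 10) one_pos (by norm_num) (by linarith)] with x hx
    refine hx.trans (le_of_eq ?_)
    unfold Pool.Agent.T2H32.BF.NN
    congr 2
    ext n
    simp only [one_mul, not_lt]
    rfl

end Pool.Agent.Results.MP_69be96_nt.RandomSieveExceptions
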