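import Pool.Agent.T2H32.GM.Fin2

set_option autoImplicit false

/-!
# A sharp transition for Cramér's inequality in the Cramér–Granville random models

For a nondecreasing sieving limit `T k = o(log k)` the integers `k ≥ 3` without prime factors `≤ T k` are put
independently into the set of random primes, with probability `min 1 (1 / (V (T k) log k))`, where
`V m = ∏_{q ≤ m} (1 - 1 / q)`; the other integers are not random primes. So `k` is a random prime with probability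
`1 / log k` on average. `T = 1` is Cramér's model, and Granville's model has `T k = (log k) ^ (1 - o(1))`.
Write `p n` for the random primes in increasing order and `g n = p (n + 1) - p n - 1`.

The theorem: almost surely `limsup g n / (log p n) ^ 2 = 1` holds if and only if `T k = (log k) ^ o(1)`. On this side
of the transition almost surely `x ^ (1 - c + o(1))` of the `n` with `p n ≤ x` have `g n ≥ c (log p n) ^ 2`, for every
`c < 1`, and finitely many `n` for every `c > 1`, as in Cramér's model. On the other side Cramér's inequality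
`g n < (log p n) ^ 2` fails almost surely for infinitely many `n`, even with a constant `1 + δ`; and for a power of `x`
of the `n` with `p n ≤ x` if `T k ≥ (log k) ^ θ` for all large `k`, where `δ > 0` depends on `θ > 0` only. The exponents
are given in terms of Buchstab's function.
-/

open MeasureTheory ProbabilityTheory Filter Topology

namespace Pool.Agent.Results.MP_69be96_nt.SievingLimitTransition

/-- `V m = ∏ (1 - 1 / q)` over the primes `q ≤ m` -/
noncomputable def V (m : ℕ) : ℝ := ∏ q ∈ (Finset.range (m + 1)).filter Nat.Prime, (1 - 1 / (q : ℝ))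

/-- `k` has no prime factor `≤ m` -/
def Rough (m k : ℕ) : Prop := ∀ q ≤ m, q.Prime → ¬ q ∣ k

/-- an admissible sieving limit: nondecreasing, and `T k = o(log k)` -/
def Limit (T : ℕ → ℕ) : Prop := Monotone T ∧ Tendsto (fun k : ℕ => (T k : ℝ) / Real.log k) atTop (𝓝 0)

/-- `A k` is the event that `k` is a random prime: these events are independent, of probability
`min 1 (1 / (V (T k) log k))` for the `k ≥ 3` without prime factors `≤ T k`, of probability zero for the others. -/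
structure Model {Ω : Type} [MeasurableSpace Ω] (P : Measure Ω) (T : ℕ → ℕ) (A : ℕ → Set Ω) : Prop where
  measurable : ∀ k, MeasurableSet (A k)
  independent : iIndepSet A P
  probability : ∀ k, 3 ≤ k → Rough (T k) k → P.real (A k) = min 1 (1 / (V (T k) * Real.log k))
  probability_zero : ∀ k, ¬ (3 ≤ k ∧ Rough (T k) k) → P.real (A k) = 0

/-- the random primes in increasing order, numbered from `0` -/
noncomputable def p {Ω : Type} (A : ℕ → Set Ω) (ω : Ω) (n : ℕ) : ℕ := Nat.nth (fun k => ω ∈ A k) n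

/-- `g n = p (n + 1) - p n - 1`, the number of integers strictly between two consecutive random primes -/
noncomputable def g {Ω : Type} (A : ℕ → Set Ω) (ω : Ω) (n : ℕ) : ℝ := (p A ω (n + 1) : ℝ) - p A ω n - 1

/-- the number of `n` with `g n ≥ c (log p n) ^ 2` and `p n ≤ x` -/
noncomputable def N {Ω : Type} (A : ℕ → Set Ω) (c : ℝ) (ω : Ω) (x : ℕ) : ℕ :=
  {n | c * Real.log (p A ω n) ^ 2 ≤ g A ω n ∧ p A ω n ≤ x}.ncard

/-- Buchstab's function: `v w(v) = 1` for `1 ≤ v ≤ 2` and `v w(v) = 1 + ∫_1^{v - 1} w` for `v ≥ 2` -/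
def Buchstab (w : ℝ → ℝ) : Prop :=
  (∀ v, 1 ≤ v → v ≤ 2 → v * w v = 1) ∧ ∀ v, 2 ≤ v → v * w v = 1 + ∫ t in (1 : ℝ)..(v - 1), w t

theorem result :
    (∃ w, Buchstab w) ∧
    (∀ T, Limit T → ∃ (Ω : Type) (_ : MeasurableSpace Ω) (P : Measure Ω) (A : ℕ → Set Ω), Model P T A) ∧
    (∀ (Ω : Type) [MeasurableSpace Ω] (P : Measure Ω) (T : ℕ → ℕ) (A : ℕ → Set Ω), Limit T → Model P T A →
      (∀ᵐ ω ∂P, {k | ω ∈ A k}.Infinite) ∧
      ((∀ᵐ ω ∂P, limsup (fun n => ((g A ω n / Real.log (p A ω n) ^ 2 : ℝ) : EReal)) atTop = 1) ↔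
        Tendsto (fun k : ℕ => Real.log (T k) / Real.log (Real.log k)) atTop (𝓝 0)) ∧
      (Tendsto (fun k : ℕ => Real.log (T k) / Real.log (Real.log k)) atTop (𝓝 0) →
        (∀ c : ℝ, 1 < c → ∀ᵐ ω ∂P, {n | c * Real.log (p A ω n) ^ 2 ≤ g A ω n}.Finite) ∧
        ∀ c : ℝ, 0 < c → c < 1 →
          ∀ᵐ ω ∂P, Tendsto (fun x : ℕ => Real.log (N A c ω x) / Real.log x) atTop (𝓝 (1 - c))) ∧
      (∀ w, Buchstab w → ∀ θ v c e : ℝ, 0 < θ → 1 < v → 2 < θ * v → 0 < c → 0 ≤ e →
        e < 1 - c * (Real.exp Real.eulerMascheroniConstant * w v) →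
        (∀ᶠ k : ℕ in atTop, θ * Real.log (Real.log k) ≤ Real.log (T k)) →
        ∀ᵐ ω ∂P, ∀ᶠ x : ℕ in atTop, (x : ℝ) ^ e ≤ N A c ω x) ∧
      (Tendsto (fun k : ℕ => Real.log (T k) / Real.log (Real.log k)) atTop (𝓝 1) →
        ∀ c e : ℝ, 0 < c → 0 ≤ e → e < 1 - c * (Real.exp Real.eulerMascheroniConstant / 2) →
        ∀ᵐ ω ∂P, ∀ᶠ x : ℕ in atTop, (x : ℝ) ^ e ≤ N A c ω x)) ∧
    ∀ θ : ℝ, 0 < θ → ∃ δ : ℝ, 0 < δ ∧
      ∀ (Ω : Type) [MeasurableSpace Ω] (P : Measure Ω) (T : ℕ → ℕ) (A : ℕ → Set Ω), Limit T → Model P T A →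
        ((∀ᶠ k : ℕ in atTop, θ * Real.log (Real.log k) ≤ Real.log (T k)) →
          ∀ᵐ ω ∂P, ∀ᶠ x : ℕ in atTop, (x : ℝ) ^ δ ≤ N A (1 + δ) ω x) ∧
        ((∃ᶠ k : ℕ in atTop, θ * Real.log (Real.log k) ≤ Real.log (T k)) →
          ∀ᵐ ω ∂P, {n | (1 + δ) * Real.log (p A ω n) ^ 2 ≤ g A ω n}.Infinite) := by
  have hM : ∀ (Ω : Type) [MeasurableSpace Ω] (P : Measure Ω) (T : ℕ → ℕ) (A : ℕ → Set Ω), Limit T → Model P T A →
      Pool.Agent.T2H32.GM.Mdl P T A := by
    intro Ω _ P T A hT h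
    refine ⟨hT.1, hT.2, h.measurable, h.independent, fun k => ?_⟩
    unfold Pool.Agent.T2H32.GM.q
    by_cases hk : 3 ≤ k ∧ Pool.Agent.T2H32.GM.Rg (T k) k
    · rw [if_pos hk]
      exact h.probability k hk.1 hk.2
    · rw [if_neg hk]
      exact h.probability_zero k hk
  refine ⟨⟨Pool.Agent.T2H32.GM.om, fun v h1 h2 => Pool.Agent.T2H32.GM.om_small v h1 h2, fun v h =>
    Pool.Agent.T2H32.GM.om_rec2 v h⟩, ?_, ?_, ?_⟩
  · intro T _
    obtain ⟨Ω, i, P, A, h1, h2, h3⟩ := Pool.Agent.T2H32.CM.exists_indep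
      (fun k => Pool.Agent.T2H32.GM.q T k) (fun k => Pool.Agent.T2H32.GM.q_nonneg T k)
      (fun k => Pool.Agent.T2H32.GM.q_le_one T k)
    refine ⟨Ω, i, P, A, h1, h2, fun k hk hk' => ?_, fun k hk => ?_⟩
    · rw [h3]
      have hk2 : 3 ≤ k ∧ Pool.Agent.T2H32.GM.Rg (T k) k := ⟨hk, hk'⟩
      unfold Pool.Agent.T2H32.GM.q
      rw [if_pos hk2]
      rfl
    · rw [h3]
      have hk2 : ¬ (3 ≤ k ∧ Pool.Agent.T2H32.GM.Rg (T k) k) := hk
      unfold Pool.Agent.T2H32.GM.q
      rw [if_neg hk2]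
  · intro Ω _ P T A hT hmod
    have h := hM Ω P T A hT hmod
    refine ⟨h.inf, h.iff, fun hlog => ⟨fun c hc => h.fin hlog c hc, fun c h0 h1 => h.count hlog c h0 h1⟩, ?_, ?_⟩
    · intro w hw θ v c e hθ hv hθv hc he hec hTk
      rw [Pool.Agent.T2H32.GM.om_unique w hw.1 hw.2 v hv.le] at hec
      exact h.low2 θ v c e hθ hv hθv hc he hec hTk
    · intro hT1 c e hc he hec
      exact h.granville hT1 c e hc he hec
  · intro θ hθ
    obtain ⟨v, hv1, hv2, δ, hδ, hδ2⟩ := Pool.Agent.T2H32.GM.osc2 θ hθ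
    refine ⟨δ, hδ, fun Ω _ P T A hT hmod => ?_⟩
    have h := hM Ω P T A hT hmod
    exact ⟨fun hTk => h.low2 θ v (1 + δ) δ hθ hv1 hv2 (by linarith) hδ.le hδ2 hTk,
      fun hTk => h.often θ v (1 + δ) δ hθ hv1 hv2 (by linarith) hδ hδ2 hTk⟩

end Pool.Agent.Results.MP_69be96_nt.SievingLimitTransition
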